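import Pool.Agent.H85.TG.Ker

/-!
# The filled kernel

`fk μ s` is the kernel `μ` with `s` additional uniform digits. Its windows of `K` digits below the
digits of `μ` are live as soon as `3 / 2 ^ K ≤ η`.
-/

set_option autoImplicit false

namespace Pool.KM7

open Finset Real
open Pool.Agent.H49.Ent Pool.Agent.H32.Dense Pool.STK Pool.KA

/-- The kernel with `s` additional uniform digits. -/
noncomputable def fk (μ : ℕ → ℝ) (s t : ℕ) : ℝ := μ (t / 2 ^ s) / 2 ^ s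

theorem fk_nonneg {μ : ℕ → ℝ} (h : ∀ t, 0 ≤ μ t) (s t : ℕ) : 0 ≤ fk μ s t :=
  div_nonneg (h _) (by positivity)

theorem lowk_fk_le (μ : ℕ → ℝ) {s q : ℕ} (hq : q ≤ s) (x : ℕ) :
    lowk (fk μ s) q x = 2 ^ q * (μ (x / 2 ^ (s - q)) / 2 ^ s) := by
  unfold lowk fk
  have h1 : ∀ r ∈ range (2 ^ q), μ ((x * 2 ^ q + r) / 2 ^ s) / 2 ^ s =
      μ (x / 2 ^ (s - q)) / 2 ^ s := by
    intro r hr
    rw [Finset.mem_range] at hr
    have e1 : (2 : ℕ) ^ s = 2 ^ q * 2 ^ (s - q) := by rw [← pow_add]; congr 1; omega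
    have e2 : (x * 2 ^ q + r) / 2 ^ q = x := by
      rw [mul_comm, Nat.mul_add_div (by positivity), Nat.div_eq_of_lt hr, add_zero]
    have e3 : (x * 2 ^ q + r) / 2 ^ s = x / 2 ^ (s - q) := by
      rw [e1, ← Nat.div_div_eq_div_mul, e2]
    rw [e3]
  rw [Finset.sum_congr rfl h1, Finset.sum_const, Finset.card_range, nsmul_eq_mul]
  push_cast
  rfl

theorem lowk_fk (μ : ℕ → ℝ) (s : ℕ) : lowk (fk μ s) s = μ := by
  funext x
  rw [lowk_fk_le μ le_rfl, Nat.sub_self, pow_zero, Nat.div_one]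
  field_simp

/-- The total mass of the filled kernel. -/
theorem sum_fk (μ : ℕ → ℝ) (L s : ℕ) :
    ∑ t ∈ range (2 ^ (L + s)), fk μ s t = ∑ t ∈ range (2 ^ L), μ t := by
  have h := sum_lowk (fk μ s) (J := L + s) (q := s) (Nat.le_add_left s L)
  rw [Nat.add_sub_cancel, lowk_fk] at h
  exact h.symm

/-- At most three subwindows are near. -/
theorem near_card (K a b : ℕ) : (∑ j ∈ range (2 ^ K), if a * 2 ^ K + j ≤ b + 1 ∧
    b ≤ a * 2 ^ K + j + 1 then (1 : ℝ) else 0) ≤ 3 := by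
  classical
  rw [← Finset.sum_filter, Finset.sum_const, nsmul_eq_mul, mul_one]
  have h1 : ((range (2 ^ K)).filter fun j => a * 2 ^ K + j ≤ b + 1 ∧
      b ≤ a * 2 ^ K + j + 1).card ≤ (Finset.Icc (b - 1) (b + 1)).card := by
    refine Finset.card_le_card_of_injOn (fun j => a * 2 ^ K + j) ?_ ?_
    · intro j hj
      have h2 := (Finset.mem_filter.1 hj).2
      rw [Finset.mem_coe, Finset.mem_Icc]
      show b - 1 ≤ a * 2 ^ K + j ∧ a * 2 ^ K + j ≤ b + 1
      exact ⟨by omega, h2.1⟩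
    · intro j _ j' _ h
      have h3 : a * 2 ^ K + j = a * 2 ^ K + j' := h
      exact Nat.add_left_cancel h3
  rw [Nat.card_Icc] at h1
  have h2 : ((range (2 ^ K)).filter fun j => a * 2 ^ K + j ≤ b + 1 ∧
      b ≤ a * 2 ^ K + j + 1).card ≤ 3 := by omega
  exact_mod_cast h2

/-- The windows of the additional digits are live. -/
theorem fk_live {μ : ℕ → ℝ} (h0 : ∀ t, 0 ≤ μ t) {L s K v t : ℕ} {η : ℝ} (hη : 3 / 2 ^ K ≤ η)
    (hv : L ≤ v) (hvK : v + K ≤ L + s) :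
    pn (fk μ s) (L + s) v K t ≤ η * pm (fk μ s) (L + s) v t := by
  classical
  obtain ⟨q, hq⟩ : ∃ q, q = L + s - (v + K) := ⟨_, rfl⟩
  have e1 : L + s - v = q + K := by omega
  have hqs : q + K ≤ s := by omega
  obtain ⟨x, hx⟩ : ∃ x, x = t / 2 ^ (q + K) := ⟨_, rfl⟩
  obtain ⟨y, hy⟩ : ∃ y, y = μ (x / 2 ^ (s - (q + K))) / 2 ^ s := ⟨_, rfl⟩
  have hy0 : 0 ≤ y := by
    rw [hy]
    exact div_nonneg (h0 _) (by positivity)
  have hpm : pm (fk μ s) (L + s) v t = 2 ^ (q + K) * y := by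
    rw [pm_eq, e1, lowk_fk_le μ hqs, ← hx, ← hy]
  have hsub : ∀ j ∈ range (2 ^ K), lowk (fk μ s) q (x * 2 ^ K + j) = 2 ^ q * y := by
    intro j hj
    rw [Finset.mem_range] at hj
    rw [lowk_fk_le μ (by omega)]
    have e2 : s - q = K + (s - (q + K)) := by omega
    have e3 : (x * 2 ^ K + j) / 2 ^ (s - q) = x / 2 ^ (s - (q + K)) := by
      rw [e2, pow_add, ← Nat.div_div_eq_div_mul]
      congr 1
      rw [mul_comm, Nat.mul_add_div (by positivity), Nat.div_eq_of_lt hj, add_zero]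
    rw [e3, ← hy]
  have hpn : pn (fk μ s) (L + s) v K t ≤ 3 * (2 ^ q * y) := by
    unfold pn
    rw [e1, ← hq, ← hx]
    have h1 : ∀ j ∈ range (2 ^ K), (if x * 2 ^ K + j ≤ t / 2 ^ q + 1 ∧
        t / 2 ^ q ≤ x * 2 ^ K + j + 1 then lowk (fk μ s) q (x * 2 ^ K + j) else 0) =
        (2 ^ q * y) * (if x * 2 ^ K + j ≤ t / 2 ^ q + 1 ∧
        t / 2 ^ q ≤ x * 2 ^ K + j + 1 then 1 else 0) := by
      intro j hj
      rw [hsub j hj]
      split_ifs
      · ring
      · ring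
    rw [Finset.sum_congr rfl h1, ← Finset.mul_sum, mul_comm (3 : ℝ)]
    exact mul_le_mul_of_nonneg_left (near_card K x _) (by positivity)
  refine hpn.trans ?_
  rw [hpm]
  have h2 : (3 : ℝ) ≤ η * 2 ^ K := by
    rwa [div_le_iff₀ (by positivity)] at hη
  have h3 : 0 ≤ 2 ^ q * y := by positivity
  calc 3 * (2 ^ q * y) ≤ (η * 2 ^ K) * (2 ^ q * y) := mul_le_mul_of_nonneg_right h2 h3
    _ = η * (2 ^ (q + K) * y) := by rw [pow_add]; ring

/-- **The bad windows of the filled kernel.** -/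
theorem nbad_fk {μ : ℕ → ℝ} (h0 : ∀ t, 0 ≤ μ t) {L s K : ℕ} {η : ℝ} (hη : 3 / 2 ^ K ≤ η)
    (t a b : ℕ) :
    nbad (fk μ s) (L + s) K η t a b ≤ nbad μ L K η (t / 2 ^ s) 0 L + K := by
  classical
  unfold nbad
  have h1 : ((Ico a b).filter fun v => v + K ≤ L + s ∧ η * pm (fk μ s) (L + s) v t <
      pn (fk μ s) (L + s) v K t) ⊆ ((Ico 0 L).filter fun v => v + K ≤ L ∧
        η * pm μ L v (t / 2 ^ s) < pn μ L v K (t / 2 ^ s)) ∪ Ico (L - K) L := by
    intro v hv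
    obtain ⟨h1, h2, h3⟩ := Finset.mem_filter.1 hv
    have h4 : v < L := by
      by_contra hcon
      push Not at hcon
      exact absurd (fk_live h0 hη hcon h2) (not_le.2 h3)
    rw [Finset.mem_union]
    by_cases h5 : v + K ≤ L
    · left
      refine Finset.mem_filter.2 ⟨Finset.mem_Ico.2 ⟨Nat.zero_le _, h4⟩, h5, ?_⟩
      have e1 := pm_low (fk μ s) (L + s) s v t (by omega) (Nat.le_add_left _ _)
      have e2 := pn_low (fk μ s) (L + s) s v K t (by omega) (Nat.le_add_left _ _)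
      rw [Nat.add_sub_cancel, lowk_fk] at e1 e2
      rw [e1, e2]
      exact h3
    · right
      rw [Finset.mem_Ico]
      omega
  refine (Finset.card_le_card h1).trans ((Finset.card_union_le _ _).trans ?_)
  refine Nat.add_le_add_left ?_ _
  rw [Nat.card_Ico]
  omega

end Pool.KM7
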