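import Pool.Agent.H58.KMF.Pnu
import Pool.Agent.H78.KM7.BASL
import Pool.Agent.H15.KM7.Avg
import Pool.Agent.H40.TG.LIV
import Pool.Agent.H40.KMF.Fill

/-!
# The base case from the label inequality for times with live windows

One block of `L` digits. The lines with live strings of the time are separated from the others; on
the first part the label inequality is applied to the family with `s` additional uniform digits, if
the relative entropy is small; otherwise, and on the second part, the label is constant.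
-/

set_option autoImplicit false

namespace Pool.KM7

open Finset Real
open Pool.Agent.H49.Ent Pool.Agent.H32.Dense Pool.STK Pool.KA

/-- The projection of the filled family. -/
theorem fll_psh {L : ℕ} (G : Fam 2 L) (s : ℕ) : Psh (fll G s).p (fun e => e.1) G.p := by
  classical
  intro ω
  unfold law
  change ∑ e : G.Ω × Fin (2 ^ s), (if e.1 = ω then (fll G s).p e else 0) = G.p ω
  rw [Fintype.sum_prod_type]
  have h5 : ∀ ω' : G.Ω, ∑ f : Fin (2 ^ s), (if (ω', f).1 = ω then (fll G s).p (ω', f) else 0) =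
      if ω' = ω then G.p ω' else 0 := by
    intro ω'
    by_cases c : ω' = ω
    · simp only [if_pos c]
      exact Fil.fll_sum G s ω'
    · simp only [if_neg c, Finset.sum_const_zero]
  rw [Finset.sum_congr rfl fun ω' _ => h5 ω', Finset.sum_ite_eq' Finset.univ ω G.p]
  simp

theorem fll_pos {L : ℕ} (G : Fam 2 L) (s : ℕ) {e : G.Ω × Fin (2 ^ s)} (he : 0 < (fll G s).p e) :
    0 < G.p e.1 := by
  change 0 < G.p e.1 / 2 ^ s at he
  exact (div_pos_iff_of_pos_right (by positivity)).1 he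

theorem fll_T_div {L : ℕ} (G : Fam 2 L) (s : ℕ) (e : G.Ω × Fin (2 ^ s)) :
    (fll G s).T e / 2 ^ s = G.T e.1 := by
  change (G.T e.1 * 2 ^ s + (e.2 : ℕ)) / 2 ^ s = G.T e.1
  rw [mul_comm, Nat.mul_add_div (by positivity), Nat.div_eq_of_lt e.2.isLt, add_zero]

/-- The filled kernel is a kernel of the filled family. -/
theorem fll_ker {L : ℕ} {G : Fam 2 L} (s : ℕ) {m : G.Ω → ℕ → ℝ} (h : G.Ker m) :
    (fll G s).Ker (fun e => fk (m e.1) s) where
  nonneg := fun e t => fk_nonneg (h.nonneg e.1) s t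
  sum := fun e => by
    rw [sum_fk]
    exact h.sum e.1
  pos := fun e he => by
    show 0 < fk (m e.1) s ((fll G s).T e)
    unfold fk
    rw [fll_T_div]
    exact div_pos (h.pos e.1 (fll_pos G s he)) (by positivity)
  det := fun e e' he he' hl => by
    have h1 : m e.1 = m e'.1 := h.det e.1 e'.1 (fll_pos G s he) (fll_pos G s he') hl
    show fk (m e.1) s = fk (m e'.1) s
    rw [h1]

/-- The relative entropy of the filled kernel. -/
theorem fll_kl {L : ℕ} {G : Fam 2 L} (s : ℕ) {m : G.Ω → ℕ → ℝ} (h : G.Ker m) :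
    (fll G s).kl (fun e => fk (m e.1) s) = G.kl m := by
  have e1 : CH (fll G s).p (fll G s).T (fun e => ((fll G s).l e, (fll G s).Z e)) =
      CH G.p G.T (fun ω => (G.l ω, G.Z ω)) + s * Real.log 2 :=
    fll_T G s (fun ω => (G.l ω, G.Z ω))
  have e2 : Ex (fll G s).p (fun e => -Real.log (fk (m e.1) s ((fll G s).T e))) =
      Ex (fll G s).p (fun e => -Real.log (m e.1 (G.T e.1)) + s * Real.log 2) := by
    refine Ex_congr_pos (fll G s).isLaw.nonneg fun e he => ?_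
    unfold fk
    rw [fll_T_div, Real.log_div (h.pos e.1 (fll_pos G s he)).ne' (by positivity), Real.log_pow]
    ring
  have e3 : Ex (fll G s).p (fun e => -Real.log (m e.1 (G.T e.1)) + s * Real.log 2) =
      Ex G.p (fun ω => -Real.log (m ω (G.T ω)) + s * Real.log 2) :=
    (fll_psh G s).Ex_eq (fun ω => -Real.log (m ω (G.T ω)) + s * Real.log 2)
  have e4 : Ex G.p (fun ω => -Real.log (m ω (G.T ω)) + s * Real.log 2) =
      Ex G.p (fun ω => -Real.log (m ω (G.T ω))) + s * Real.log 2 := by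
    unfold Ex
    simp only [mul_add, Finset.sum_add_distrib]
    rw [← Finset.sum_mul, G.isLaw.sum_one, one_mul]
  unfold Fam.kl
  rw [e1, e2, e3, e4]
  ring

/-- The entropy of the time. -/
theorem CH_T_le {L : ℕ} (G : Fam 2 L) {κ : Type} (Y : G.Ω → κ) :
    CH G.p G.T Y ≤ L * Real.log 2 := by
  refine (CH_le_card G.isLaw.nonneg G.isLaw.sum_one G.T _ (fun _ => Finset.range (2 ^ L))
    (fun ω _ => Finset.mem_range.mpr (G.tim ω))).trans ?_
  rw [Ex_const G.isLaw.sum_one, Finset.card_range]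
  push_cast
  rw [Real.log_pow]

/-- The potential of a label with sections of the same type. -/
theorem Psi_const {κ : ℝ} {L s : ℕ} (G : Fam 2 L) (q : G.Ω → Sec)
    (hq : ∀ ω, 0 < G.p ω → (q ω).c = false ∧ (q ω).h = L ∧ (q ω).p = s ∧
      |(q ω).a| ≤ 4 * 2 ^ s) :
    Psi κ G q = L * Real.log 2 + (2 * L + (1 - κ) * s) * Real.log 2 -
      CH G.p (Lab G q) G.Z := by
  unfold Psi
  have e1 : Ex G.p (fun ω => (2 * ((q ω).h : ℝ) + (1 - κ) * (q ω).p) * Real.log 2) =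
      (2 * L + (1 - κ) * s) * Real.log 2 := by
    rw [Ex_congr_pos (g := fun _ => (2 * (L : ℝ) + (1 - κ) * s) * Real.log 2) G.isLaw.nonneg
      (fun ω hω => by
        obtain ⟨_, h1, h2, _⟩ := hq ω hω
        rw [h1, h2]), Ex_const G.isLaw.sum_one]
  rw [e1]

/-- The logarithm of the kernel. -/
theorem Ex_log {L : ℕ} (G : Fam 2 L) (m : G.Ω → ℕ → ℝ) :
    Ex G.p (fun ω => L * Real.log 2 + Real.log (m ω (G.T ω))) + G.kl m =
      L * Real.log 2 - CH G.p G.T (fun ω => (G.l ω, G.Z ω)) := by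
  unfold Fam.kl Ex
  simp only [mul_add, mul_neg, Finset.sum_add_distrib, Finset.sum_neg_distrib]
  rw [← Finset.sum_mul, G.isLaw.sum_one, one_mul]
  ring

/-- The data of the base case. -/
structure Dat (b ε θ η C₁ C₂ C₃ : ℝ) (K J₀ : ℕ) : Prop where
  fil : ∀ (L s : ℕ) (G : Fam 2 L) (q : G.Ω → Sec),
    (∀ ω, 0 < G.p ω → (q ω).c = false ∧ (q ω).h = L ∧ (q ω).p = s ∧
      |(q ω).a| ≤ 4 * 2 ^ s) →
    CH (fll G s).p ((fll G s).X (L + s)) (fll G s).W ≤
      CH G.p (Lab G q) G.Z + s * Real.log 2 - CH G.p G.T G.Z + C₁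
  lbl : ∀ (κ : ℝ), 0 ≤ κ → κ ≤ 1 → ∀ (J : ℕ) (F : Fam 2 J) (B : Pool.LK.Lbl F b),
    Get κ J (F.trc 0 (Nat.zero_le _)) ((2 - κ) * (J * Real.log 2) - B.cost - C₂)
  dead : ∀ (κ : ℝ) (n R : ℕ) (G : Fam 2 n) (q : G.Ω → Sec),
    (∀ ω, 0 < G.p ω → Ok n R (q ω)) →
    Get κ R (G.trc 0 (Nat.zero_le _)) (Psi κ G q - 3 * (n * Real.log 2) - C₃)
  lkg : ∀ J ≥ J₀, ∀ F : Fam 2 J, F.TG False K η 0 (η * J) (θ * J) →
    ∃ B : Pool.LK.Lbl F b, B.cost ≤ F.Vf + ε * J
  eta : 3 / 2 ^ K ≤ η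
  the : 0 < θ

section Piece

variable {b ε θ η C₁ C₂ C₃ κ : ℝ} {K J₀ : ℕ}

/-- The live part with small relative entropy. -/
theorem Dat.small (D : Dat b ε θ η C₁ C₂ C₃ K J₀) (hκ : 0 ≤ κ) (hκ1 : κ ≤ 1) {L s : ℕ}
    (hL : J₀ ≤ L) (hKL : (K : ℝ) ≤ η / 2 * L) (G : Fam 2 L) {m : G.Ω → ℕ → ℝ} (hm : G.Ker m)
    (hlive : ∀ ω, 0 < G.p ω → (nbad (m ω) L K η (G.T ω) 0 L : ℝ) ≤ η / 2 * L)
    (hkl : G.kl m ≤ θ * L) (q : G.Ω → Sec)
    (hq : ∀ ω, 0 < G.p ω → (q ω).c = false ∧ (q ω).h = L ∧ (q ω).p = s ∧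
      |(q ω).a| ≤ 4 * 2 ^ s) :
    Get κ (L + s) (G.trc 0 (Nat.zero_le _))
      (Psi κ G q - (L * Real.log 2 - CH G.p G.T (fun ω => (G.l ω, G.Z ω))) -
        κ * (L * Real.log 2) - ε * ((L : ℝ) + s) - C₁ - C₂) := by
  have hη : 0 < η := lt_of_lt_of_le (by positivity) D.eta
  have hTG : (fll G s).TG False K η 0 (η * ((L + s : ℕ) : ℝ)) (θ * ((L + s : ℕ) : ℝ)) := by
    refine ⟨fun e => fk (m e.1) s, fll_ker s hm, fun h => h.elim, ?_, ?_⟩
    · intro e he a c _ _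
      have h1 := nbad_fk (hm.nonneg e.1) (L := L) (s := s) D.eta ((fll G s).T e) a c
      rw [fll_T_div] at h1
      have h2 := hlive e.1 (fll_pos G s he)
      have h3 : (nbad (fk (m e.1) s) (L + s) K η ((fll G s).T e) a c : ℝ) ≤
          nbad (m e.1) L K η (G.T e.1) 0 L + K := by exact_mod_cast h1
      have h4 : 0 ≤ η * s := by positivity
      show (nbad (fk (m e.1) s) (L + s) K η ((fll G s).T e) a c : ℝ) ≤ _
      push_cast
      linarith
    · rw [fll_kl s hm]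
      refine hkl.trans ?_
      push_cast
      have h4 : 0 ≤ θ * s := mul_nonneg D.the.le (Nat.cast_nonneg _)
      linarith
  obtain ⟨B, hB⟩ := D.lkg (L + s) (by omega) (fll G s) hTG
  have h1 := D.fil L s G q hq
  have h2 := D.lbl κ hκ hκ1 (L + s) (fll G s) B
  have h3 := get_fll G h2
  refine Get.mono ?_ h3
  have h4 : (fll G s).Vf ≤ CH G.p (Lab G q) G.Z + s * Real.log 2 -
      CH G.p G.T (fun ω => (G.l ω, G.Z ω)) + C₁ := by
    have e1 : CH (fll G s).p (fll G s).T (fun e => ((fll G s).l e, (fll G s).Z e)) =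
        CH G.p G.T (fun ω => (G.l ω, G.Z ω)) + s * Real.log 2 :=
      fll_T G s (fun ω => (G.l ω, G.Z ω))
    have e2 : CH (fll G s).p (fll G s).T (fll G s).Z =
        CH G.p G.T G.Z + s * Real.log 2 := fll_T G s G.Z
    have e3 : CH (fll G s).p (fun ω => ((fll G s).X (L + s) ω, (fll G s).T ω)) (fll G s).Z =
        CH (fll G s).p (fll G s).T (fll G s).Z +
          CH (fll G s).p ((fll G s).X (L + s)) (fll G s).W :=
      CH_chain (fll G s).isLaw.nonneg _ _ _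
    unfold Fam.Vf
    rw [e3, e1, e2]
    linarith
  rw [Psi_const G q hq]
  have e5 : (2 - κ) * (((L + s : ℕ) : ℝ) * Real.log 2) = 2 * (L * Real.log 2) +
      2 * (s * Real.log 2) - κ * (L * Real.log 2) - κ * (s * Real.log 2) := by
    push_cast
    ring
  have e6 : ε * ((L + s : ℕ) : ℝ) = ε * ((L : ℝ) + s) := by push_cast; ring
  rw [e6] at hB
  rw [e5]
  linarith

/-- The live part. -/
theorem Dat.live (D : Dat b ε θ η C₁ C₂ C₃ K J₀) (hC₁ : 0 ≤ C₁) (hC₂ : 0 ≤ C₂) (hC₃ : 0 ≤ C₃)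
    (hε : 0 ≤ ε) (hκ : 0 ≤ κ) (hκ1 : κ ≤ 1) {L s : ℕ}
    (hL : J₀ ≤ L) (hKL : (K : ℝ) ≤ η / 2 * L) (G : Fam 2 L) {m : G.Ω → ℕ → ℝ} (hm : G.Ker m)
    (hlive : ∀ ω, 0 < G.p ω → (nbad (m ω) L K η (G.T ω) 0 L : ℝ) ≤ η / 2 * L)
    (q : G.Ω → Sec)
    (hq : ∀ ω, 0 < G.p ω → (q ω).c = false ∧ (q ω).h = L ∧ (q ω).p = s ∧
      |(q ω).a| ≤ 4 * 2 ^ s) :
    Get κ (L + s) (G.trc 0 (Nat.zero_le _))
      (Psi κ G q - Ex G.p (fun ω => L * Real.log 2 + Real.log (m ω (G.T ω))) -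
        (1 + 3 / θ) * G.kl m - κ * (L * Real.log 2) - ε * ((L : ℝ) + s) - C₁ - C₂ - C₃) := by
  have hl2 : 0 < Real.log 2 := Real.log_pos (by norm_num)
  have hl1 : Real.log 2 ≤ 1 := by
    have := Real.log_two_lt_d9
    linarith
  have h0 := Ex_log G m
  have hθ := D.the
  have hkl0 : 0 ≤ G.kl m := Pool.KA.Liv.kl_nonneg hm
  have h3θ : 0 ≤ 3 / θ * G.kl m := by positivity
  rcases le_or_gt (G.kl m) (θ * L) with hc | hc
  · refine Get.mono ?_ (D.small hκ hκ1 hL hKL G hm hlive hc q hq)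
    linarith
  · refine Get.mono ?_ (D.dead κ L (L + s) G q (fun ω hω => by
      obtain ⟨_, h2, h3, h4⟩ := hq ω hω
      exact ⟨h2.ge, by rw [h2, h3], by rw [h3]; exact h4⟩))
    have h1 : 3 * (L : ℝ) ≤ 3 / θ * G.kl m := by
      have h2 : 3 / θ * (θ * L) ≤ 3 / θ * G.kl m :=
        mul_le_mul_of_nonneg_left hc.le (by positivity)
      have h3 : 3 / θ * (θ * L) = 3 * L := by field_simp
      linarith
    have h2 : (L : ℝ) * Real.log 2 ≤ L * 1 := mul_le_mul_of_nonneg_left hl1 (Nat.cast_nonneg _)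
    have h3 := CH_T_le G (fun ω => (G.l ω, G.Z ω))
    have h4 : 0 ≤ κ * (L * Real.log 2) := by positivity
    have h5 : 0 ≤ ε * ((L : ℝ) + s) := by positivity
    linarith

open Classical in
/-- **The base case for one block of `L` digits.** -/
theorem Dat.core (D : Dat b ε θ η C₁ C₂ C₃ K J₀) (hC₁ : 0 ≤ C₁) (hC₂ : 0 ≤ C₂) (hC₃ : 0 ≤ C₃)
    (hε : 0 ≤ ε) (hκ : 0 ≤ κ) (hκ1 : κ ≤ 1) {L s : ℕ}
    (hL : J₀ ≤ L) (hKL : (K : ℝ) ≤ η / 2 * L) (G : Fam 2 L) {m : G.Ω → ℕ → ℝ} (hm : G.Ker m)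
    (q : G.Ω → Sec)
    (hq : ∀ ω, 0 < G.p ω → (q ω).c = false ∧ (q ω).h = L ∧ (q ω).p = s ∧
      |(q ω).a| ≤ 4 * 2 ^ s) :
    Get κ (L + s) (G.trc 0 (Nat.zero_le _))
      (Psi κ G q - Ex G.p (fun ω => if Lv L K η (m ω) (G.T ω) then
          L * Real.log 2 + Real.log (m ω (G.T ω)) else 3 * (L * Real.log 2)) -
        (1 + 3 / θ) * G.kl m - κ * (L * Real.log 2) - ε * ((L : ℝ) + s) -
          (C₁ + C₂ + C₃ + (2 + 3 / θ) * Real.log 2)) := by
  have hl2 : 0 < Real.log 2 := Real.log_pos (by norm_num)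
  have hp := G.isLaw.nonneg
  have hθ := D.the
  obtain ⟨S, hS⟩ : ∃ S : G.Ω → Bool, S = fun ω => decide (Lv L K η (m ω) (G.T ω)) := ⟨_, rfl⟩
  obtain ⟨g, hg⟩ : ∃ g : G.Ω → ℝ, g = fun ω => if Lv L K η (m ω) (G.T ω) then
      L * Real.log 2 + Real.log (m ω (G.T ω)) else 3 * (L * Real.log 2) := ⟨_, rfl⟩
  obtain ⟨E, hE⟩ : ∃ E, E = κ * (L * Real.log 2) + ε * ((L : ℝ) + s) + C₁ + C₂ + C₃ := ⟨_, rfl⟩
  have hE0 : 0 ≤ κ * (L * Real.log 2) + ε * ((L : ℝ) + s) := by positivity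
  have hcl : ∀ a, law G.p S a ≠ 0 → IsLaw (Pool.Agent.H49.Ent.cond G.p S a) :=
    fun a ha => cond_isLaw hp S ha
  -- the values of the pieces
  obtain ⟨Φ, hΦ⟩ : ∃ Φ : G.Ω → ℝ, Φ = fun ω =>
      (2 * ((q ω).h : ℝ) + (1 - κ) * (q ω).p) * Real.log 2 := ⟨_, rfl⟩
  obtain ⟨x, hx⟩ : ∃ x : Bool → ℝ, x = fun a => L * Real.log 2 +
      Ex (Pool.Agent.H49.Ent.cond G.p S a) Φ -
      CH (Pool.Agent.H49.Ent.cond G.p S a) (Lab G q) G.Z -
      Ex (Pool.Agent.H49.Ent.cond G.p S a) g -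
      (if a = true then (1 + 3 / θ) * (Ex (Pool.Agent.H49.Ent.cond G.p S a)
        (fun ω => -Real.log (m ω (G.T ω))) -
        CH (Pool.Agent.H49.Ent.cond G.p S a) G.T (fun ω => (G.l ω, G.Z ω))) else 0) - E := ⟨_, rfl⟩
  have hmix := mix_thm κ (L + s) 0 (G.trc 0 (Nat.zero_le _)) Bool S (fun a ha => hcl a ha) x (by
    intro a ha
    have ha' : law G.p S a ≠ 0 := ha
    have hpos : ∀ ω, 0 < Pool.Agent.H49.Ent.cond G.p S a ω → 0 < G.p ω ∧ S ω = a := fun ω hω =>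
      (cond_pos_iff hp S a ω).1 hω
    have hq' : ∀ ω, 0 < (G.res S a (hcl a ha')).p ω → (q ω).c = false ∧ (q ω).h = L ∧
        (q ω).p = s ∧ |(q ω).a| ≤ 4 * 2 ^ s := fun ω hω => hq ω (hpos ω hω).1
    cases a with
    | true =>
      have h1 := D.live hC₁ hC₂ hC₃ hε hκ hκ1 hL hKL (G.res S true (hcl true ha'))
        (hm.res S true (hcl true ha')) (fun ω hω => by
          have h2 : S ω = true := (hpos ω hω).2
          rw [hS] at h2
          exact of_decide_eq_true h2) q hq'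
      have h3 : Ex (Pool.Agent.H49.Ent.cond G.p S true) g =
          Ex (Pool.Agent.H49.Ent.cond G.p S true)
            (fun ω => L * Real.log 2 + Real.log (m ω (G.T ω))) :=
        Ex_congr_pos (cond_nonneg hp S true) fun ω hω => by
          have h2 : S ω = true := (hpos ω hω).2
          rw [hS] at h2
          rw [hg]
          exact if_pos (of_decide_eq_true h2)
      refine Get.mono (le_of_eq ?_) h1
      rw [hx]
      simp only [if_true]
      rw [h3, hE, hΦ]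
      unfold Psi Fam.kl
      show _ = L * Real.log 2 + Ex (Pool.Agent.H49.Ent.cond G.p S true) (fun ω =>
        (2 * ((q ω).h : ℝ) + (1 - κ) * (q ω).p) * Real.log 2) -
        CH (Pool.Agent.H49.Ent.cond G.p S true) (Lab G q) G.Z -
        Ex (Pool.Agent.H49.Ent.cond G.p S true)
          (fun ω => L * Real.log 2 + Real.log (m ω (G.T ω))) -
        (1 + 3 / θ) * (Ex (Pool.Agent.H49.Ent.cond G.p S true)
          (fun ω => -Real.log (m ω (G.T ω))) -
          CH (Pool.Agent.H49.Ent.cond G.p S true) G.T (fun ω => (G.l ω, G.Z ω))) -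
          κ * (L * Real.log 2) - ε * ((L : ℝ) + s) - C₁ - C₂ - C₃
      ring
    | false =>
      have h1 := D.dead κ L (L + s) (G.res S false (hcl false ha')) q (fun ω hω => by
        obtain ⟨_, h2, h3, h4⟩ := hq' ω hω
        exact ⟨h2.ge, by rw [h2, h3], by rw [h3]; exact h4⟩)
      have h3 : Ex (Pool.Agent.H49.Ent.cond G.p S false) g = 3 * (L * Real.log 2) := by
        have h4 : Ex (Pool.Agent.H49.Ent.cond G.p S false) g =
            Ex (Pool.Agent.H49.Ent.cond G.p S false) (fun _ => 3 * (L * Real.log 2)) :=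
          Ex_congr_pos (cond_nonneg hp S false) fun ω hω => by
            have h2 : S ω = false := (hpos ω hω).2
            rw [hS] at h2
            rw [hg]
            exact if_neg (of_decide_eq_false h2)
        rw [h4, Ex_const (hcl false ha').sum_one]
      refine Get.mono ?_ h1
      rw [hx]
      simp only [Bool.false_eq_true, if_false]
      rw [h3, hE, hΦ]
      unfold Psi
      show _ ≤ L * Real.log 2 + Ex (Pool.Agent.H49.Ent.cond G.p S false) (fun ω =>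
        (2 * ((q ω).h : ℝ) + (1 - κ) * (q ω).p) * Real.log 2) -
        CH (Pool.Agent.H49.Ent.cond G.p S false) (Lab G q) G.Z - 3 * (L * Real.log 2) - C₃
      linarith)
  refine Get.mono ?_ hmix
  -- averages
  have hsum : ∀ f : Bool → ℝ, ∑ a ∈ univ.image S, law G.p S a * f a =
      ∑ a, law G.p S a * f a := by
    intro f
    refine Finset.sum_subset (Finset.subset_univ _) fun a _ ha => ?_
    have h1 : law G.p S a = 0 := by
      unfold law
      refine Finset.sum_eq_zero fun ω _ => ?_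
      rw [if_neg]
      intro h
      exact ha (Finset.mem_image.2 ⟨ω, Finset.mem_univ _, h⟩)
    rw [h1, zero_mul]
  have a1 := avg_Ex hp S Φ
  have a2 := avg_Ex hp S g
  have a3 := avg_CH hp S (Lab G q) G.Z
  have a4 : ∑ a ∈ univ.image S, law G.p S a = 1 := by
    rw [sum_law, G.isLaw.sum_one]
  have a5 : CH G.p (Lab G q) (fun ω => (G.Z ω, S ω)) ≤ CH G.p (Lab G q) G.Z :=
    CH_mono_cond hp fun ω ω' _ _ h => (Prod.ext_iff.mp h).1
  have a6 : CH G.p S G.Z ≤ Real.log 2 := by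
    refine (CH_le_card hp G.isLaw.sum_one S _ (fun _ => Finset.univ)
      (fun ω _ => Finset.mem_univ _)).trans ?_
    rw [Ex_const G.isLaw.sum_one, Finset.card_univ, Fintype.card_bool]
    push_cast
    exact le_refl _
  have a7 : ∑ a ∈ univ.image S, law G.p S a * (if a = true then (1 + 3 / θ) *
      (Ex (Pool.Agent.H49.Ent.cond G.p S a) (fun ω => -Real.log (m ω (G.T ω))) -
        CH (Pool.Agent.H49.Ent.cond G.p S a) G.T (fun ω => (G.l ω, G.Z ω))) else 0) ≤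
      (1 + 3 / θ) * G.kl m + (1 + 3 / θ) * Real.log 2 := by
    rw [hsum, Fintype.sum_bool]
    simp only [if_true, Bool.false_eq_true, if_false, mul_zero, add_zero]
    by_cases h0 : law G.p S true = 0
    · rw [h0, zero_mul]
      have h1 : 0 ≤ G.kl m := Pool.KA.Liv.kl_nonneg hm
      positivity
    · have h1 := Pool.KA.Liv.kl_res hm S (hcl true h0)
      rw [Fintype.card_bool] at h1
      have h2 : law G.p S true * (Ex (Pool.Agent.H49.Ent.cond G.p S true)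
          (fun ω => -Real.log (m ω (G.T ω))) -
          CH (Pool.Agent.H49.Ent.cond G.p S true) G.T (fun ω => (G.l ω, G.Z ω))) ≤
          G.kl m + Real.log 2 := by exact_mod_cast h1
      have h3 := mul_le_mul_of_nonneg_left h2 (show 0 ≤ 1 + 3 / θ by positivity)
      linarith
  have a8 : ∑ a ∈ univ.image S, law G.p S a * x a =
      L * Real.log 2 + Ex G.p Φ - CH G.p (Lab G q) (fun ω => (G.Z ω, S ω)) - Ex G.p g -
      ∑ a ∈ univ.image S, law G.p S a * (if a = true then (1 + 3 / θ) *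
      (Ex (Pool.Agent.H49.Ent.cond G.p S a) (fun ω => -Real.log (m ω (G.T ω))) -
        CH (Pool.Agent.H49.Ent.cond G.p S a) G.T (fun ω => (G.l ω, G.Z ω))) else 0) - E := by
    rw [a1, a2, a3, hx]
    simp only [mul_sub, mul_add, Finset.sum_sub_distrib, Finset.sum_add_distrib]
    rw [← Finset.sum_mul, ← Finset.sum_mul, a4, one_mul, one_mul]
  have a9 : Psi κ G q = L * Real.log 2 + Ex G.p Φ - CH G.p (Lab G q) G.Z := by
    rw [hΦ]
    rfl
  show Psi κ G q - Ex G.p (fun ω => if Lv L K η (m ω) (G.T ω) then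
          L * Real.log 2 + Real.log (m ω (G.T ω)) else 3 * (L * Real.log 2)) -
        (1 + 3 / θ) * G.kl m - κ * (L * Real.log 2) - ε * ((L : ℝ) + s) -
          (C₁ + C₂ + C₃ + (2 + 3 / θ) * Real.log 2) ≤
      ∑ a ∈ univ.image S, law G.p S a * x a - CH G.p S G.Z
  rw [a8, a9, ← hg]
  have hE' := hE
  nlinarith [a5, a6, a7]

end Piece

open Classical in
/-- **(BASG)** -/
theorem basg_thm (hL : LBLStmt) : BASGStmt := by
  intro b hb hLK κ hκ hκ1 A
  obtain ⟨C₁, hC₁, hfil⟩ := fil_thm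
  obtain ⟨C₂, hC₂, hlbl⟩ := hL b hb
  obtain ⟨C₃, hC₃, hdead⟩ := dead_zero dead_thm
  have hl2 : 0 < Real.log 2 := Real.log_pos (by norm_num)
  have hl1 : Real.log 2 < 0.7 := by
    have := Real.log_two_lt_d9
    linarith
  have hA1 : (0 : ℝ) < 1 + A := by positivity
  obtain ⟨η, hη, hlkη⟩ := hLK (κ / (2 * (1 + A))) (by positivity)
  refine ⟨η, hη, fun K hK => ?_⟩
  obtain ⟨θ, hθ, J₀, hlk⟩ := hlkη K
  have D : Dat b (κ / (2 * (1 + A))) θ η C₁ C₂ C₃ K J₀ :=
    ⟨hfil, hlbl, hdead, hlk, hK, hθ⟩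
  obtain ⟨K₁, hK₁⟩ := exists_nat_ge (4 * (C₁ + C₂ + C₃ + (2 + 3 / θ) * Real.log 2) / κ)
  obtain ⟨K₂, hK₂⟩ := exists_nat_ge (2 * (K : ℝ) / η)
  refine ⟨1 + 3 / θ, by
    have : 0 ≤ 3 / θ := by positivity
    linarith, max J₀ (max K₁ K₂), fun L hLL => ?_⟩
  have hLJ : J₀ ≤ L := (le_max_left _ _).trans hLL
  have hL1 : K₁ ≤ L := ((le_max_left _ _).trans (le_max_right _ _)).trans hLL
  have hL2 : K₂ ≤ L := ((le_max_right _ _).trans (le_max_right _ _)).trans hLL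
  have hLc : C₁ + C₂ + C₃ + (2 + 3 / θ) * Real.log 2 ≤ κ / 4 * L := by
    rw [div_le_iff₀ hκ] at hK₁
    have h1 : (K₁ : ℝ) ≤ L := by exact_mod_cast hL1
    have h2 := mul_le_mul_of_nonneg_right h1 hκ.le
    linarith
  have hKL : (K : ℝ) ≤ η / 2 * L := by
    rw [div_le_iff₀ hη] at hK₂
    have h1 : (K₂ : ℝ) ≤ L := by exact_mod_cast hL2
    have h2 := mul_le_mul_of_nonneg_right h1 hη.le
    linarith
  -- the block is the whole time
  have key : ∀ J : ℕ, J = L → ∀ (G : Fam 2 J) (y : ℕ → G.Ω → BL L),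
      Det G.p (fun ω => (G.l ω, G.Z ω)) (y 0) → ∀ s ≤ A * J, ∀ q : G.Ω → Sec,
      (∀ ω, 0 < G.p ω → (q ω).c = false ∧ (q ω).h = J ∧ (q ω).p = s ∧
        |(q ω).a| ≤ 4 * 2 ^ s) →
      Get κ (J + s) (G.trc 0 (Nat.zero_le _))
        (Psi κ G q - (Ex G.p (fun ω => fL L K η (1 + 3 / θ) (y 0 ω) (G.T ω)) -
          (1 + 3 / θ) * CH G.p G.T (fun ω => (G.l ω, G.Z ω))) - 2 * κ * J) := by
    intro J hJ
    subst hJ
    intro G y hdet s hs q hq
    have hker : G.Ker (fun ω => (y 0 ω).1) := by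
      refine ⟨fun ω t => (y 0 ω).2.1 t, fun ω => (y 0 ω).2.2.1, fun ω _ =>
        (y 0 ω).pos (G.tim ω), fun ω ω' hω hω' h => ?_⟩
      have h1 : y 0 ω = y 0 ω' := hdet ω ω' hω hω' h
      show (y 0 ω).1 = (y 0 ω').1
      rw [h1]
    have h1 := D.core hC₁ hC₂ hC₃ (by positivity) hκ.le hκ1 hLJ hKL G hker q hq
    refine Get.mono ?_ h1
    have h2 : Ex G.p (fun ω => fL J K η (1 + 3 / θ) (y 0 ω) (G.T ω)) =
        Ex G.p (fun ω => if Lv J K η (y 0 ω).1 (G.T ω) then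
          J * Real.log 2 + Real.log ((y 0 ω).1 (G.T ω)) else 3 * (J * Real.log 2)) +
        (1 + 3 / θ) * Ex G.p (fun ω => -Real.log ((y 0 ω).1 (G.T ω))) := by
      unfold Ex
      rw [Finset.mul_sum, ← Finset.sum_add_distrib]
      refine Finset.sum_congr rfl fun ω _ => ?_
      unfold fL fbl
      ring
    have h3 : G.kl (fun ω => (y 0 ω).1) = Ex G.p (fun ω => -Real.log ((y 0 ω).1 (G.T ω))) -
        CH G.p G.T (fun ω => (G.l ω, G.Z ω)) := rfl
    have h4 : (1 + 3 / θ) * G.kl (fun ω => (y 0 ω).1) =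
        (1 + 3 / θ) * Ex G.p (fun ω => -Real.log ((y 0 ω).1 (G.T ω))) -
        (1 + 3 / θ) * CH G.p G.T (fun ω => (G.l ω, G.Z ω)) := by rw [h3]; ring
    have h5 : κ / (2 * (1 + A)) * ((J : ℝ) + s) ≤ κ / 2 * J := by
      have h6 : (s : ℝ) ≤ A * J := by exact_mod_cast hs
      have h7 : (J : ℝ) + s ≤ (1 + A) * J := by linarith
      refine (mul_le_mul_of_nonneg_left h7 (by positivity)).trans (le_of_eq ?_)
      field_simp
    have h8 : κ * (J * Real.log 2) ≤ κ * (J * 0.7) := by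
      have : (J : ℝ) * Real.log 2 ≤ J * 0.7 := mul_le_mul_of_nonneg_left hl1.le (Nat.cast_nonneg _)
      exact mul_le_mul_of_nonneg_left this hκ.le
    have h9 : 0 ≤ κ * (J : ℝ) := by positivity
    rw [h2]
    linarith
  intro G y hAdm hu s hs q hq
  have hG0 := G.isLaw.nonneg
  have hJ : L * 1 = L := mul_one L
  have hT : ∀ ω, G.T ω < 2 ^ L := fun ω => lt_of_lt_of_eq (G.tim ω) (by rw [hJ])
  have hdet : Det G.p (fun ω => (G.l ω, G.Z ω)) (y 0) := by
    intro ω ω' hω hω' h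
    refine hAdm 0 Nat.one_pos ω ω' hω hω' ?_
    have h1 : G.T ω / 2 ^ (L * (0 + 1)) = G.T ω' / 2 ^ (L * (0 + 1)) := by
      have h3 : ∀ w, G.T w / 2 ^ (L * (0 + 1)) = 0 := fun w => Nat.div_eq_of_lt (G.tim w)
      rw [h3 ω, h3 ω']
    show (((), (G.l ω, G.Z ω)), G.T ω / 2 ^ (L * (0 + 1))) =
      (((), (G.l ω', G.Z ω')), G.T ω' / 2 ^ (L * (0 + 1)))
    have h2 : (G.l ω, G.Z ω) = (G.l ω', G.Z ω') := h
    rw [h1, h2]
  have h1 := key (L * 1) hJ G y hdet s hs q hq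
  refine Get.mono ?_ h1
  have h2 : Ex G.p (fun ω => fL L K η (1 + 3 / θ) (y 0 ω) (G.T ω)) -
      (1 + 3 / θ) * CH G.p G.T (fun ω => (G.l ω, G.Z ω)) ≤
      cst (fL L K η (1 + 3 / θ)) (1 + 3 / θ) L 1 G (fun _ => ()) y := by
    unfold cst
    rw [Finset.sum_range_one]
    have e1 : Ex G.p (fun ω => fL L K η (1 + 3 / θ) (y 0 ω) (G.T ω / 2 ^ (L * 0) % 2 ^ L)) =
        Ex G.p (fun ω => fL L K η (1 + 3 / θ) (y 0 ω) (G.T ω)) := by
      congr 1
      funext ω
      rw [mul_zero, pow_zero, Nat.div_one, Nat.mod_eq_of_lt (hT ω)]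
    have e2 : CH G.p (fun ω => G.T ω % 2 ^ (L * 1))
        (fun ω => (((), (G.l ω, G.Z ω)), G.T ω / 2 ^ (L * 1))) ≤
        CH G.p G.T (fun ω => (G.l ω, G.Z ω)) := by
      have e3 : CH G.p (fun ω => G.T ω % 2 ^ (L * 1))
        (fun ω => (((), (G.l ω, G.Z ω)), G.T ω / 2 ^ (L * 1))) ≤
        CH G.p (fun ω => G.T ω % 2 ^ (L * 1)) (fun ω => (G.l ω, G.Z ω)) :=
        CH_mono_cond hG0 fun ω ω' _ _ h => (Prod.ext_iff.mp (Prod.ext_iff.mp h).1).2
      refine e3.trans (CH_mono_left hG0 ?_)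
      intro ω ω' _ _ h
      have h4 : G.T ω = G.T ω' := (Prod.ext_iff.mp h).1
      show G.T ω % 2 ^ (L * 1) = G.T ω' % 2 ^ (L * 1)
      rw [h4]
    have e4 := mul_le_mul_of_nonneg_left e2 (show 0 ≤ 1 + 3 / θ by positivity)
    rw [e1]
    linarith
  linarith

end Pool.KM7
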