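import Pool.Agent.H40.TG.NbrA

/-!
# The chain rule for the cost of the own kernels (KLP)
-/

set_option autoImplicit false

namespace Pool.KMF

open Finset Real
open Pool.Agent.H49.Ent Pool.Agent.H32.Dense Pool.STK Pool.KA

variable {m J : ℕ}

/-- The `L` digits of the time after the digit `w`. -/
def bk (F : Fam m J) (w L : ℕ) (ω : F.Ω) : ℕ := F.T1 (w + L) ω % 2 ^ L

/-- The first `w` digits of the time, the line and the side information. -/
def Vw (F : Fam m J) (w : ℕ) (ω : F.Ω) : ℕ × (((Fin m → ℝ) × (Fin m → ℝ)) × F.ζ) :=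
  (F.T1 w ω, (F.l ω, F.Z ω))

/-- The own kernel of the block `(w, w + L]`. -/
noncomputable def own (F : Fam m J) (w L : ℕ) (ω : F.Ω) (t : ℕ) : ℝ :=
  law (cond F.p (Vw F w) (Vw F w ω)) (bk F w L) t

theorem own_pos (F : Fam m J) (w L : ℕ) {ω : F.Ω} (hω : 0 < F.p ω) :
    0 < own F w L ω (bk F w L ω) := Pool.KA.Nbr.nu_pos F.isLaw.nonneg (bk F w L) (Vw F w) hω

theorem own_nonneg (F : Fam m J) (w L : ℕ) (ω : F.Ω) (t : ℕ) : 0 ≤ own F w L ω t :=
  Pool.KA.Nbr.nu_nonneg F.isLaw.nonneg (bk F w L) (Vw F w) ω t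

theorem own_sum (F : Fam m J) (w L : ℕ) {ω : F.Ω} (hω : 0 < F.p ω) :
    ∑ t ∈ range (2 ^ L), own F w L ω t = 1 :=
  Pool.KA.Nbr.sum_nu F.isLaw.nonneg (bk F w L) (Vw F w)
    (fun ω => Finset.mem_range.2 (Nat.mod_lt _ (by positivity))) hω

theorem own_det (F : Fam m J) (w L : ℕ) : Det F.p (Vw F w) (own F w L) :=
  Pool.KA.Nbr.det_nu (bk F w L) (Vw F w)

/-- The entropy of one block. -/
theorem own_ch (F : Fam m J) (w L : ℕ) :
    Ex F.p (fun ω => -Real.log (own F w L ω (bk F w L ω))) = CH F.p (bk F w L) (Vw F w) :=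
  (Pool.KA.Nbr.ch_nu F.isLaw.nonneg (bk F w L) (Vw F w)).symm

/-- The chain rule for one block. -/
theorem blk_chain (F : Fam m J) {w L : ℕ} (hJ : w + L ≤ J) :
    CH F.p (F.T1 (w + L)) (fun ω => (F.l ω, F.Z ω)) =
      CH F.p (F.T1 w) (fun ω => (F.l ω, F.Z ω)) + CH F.p (bk F w L) (Vw F w) := by
  have hp := F.isLaw.nonneg
  have h1 := CH_chain hp (bk F w L) (F.T1 w) (fun ω => (F.l ω, F.Z ω))
  have h2 : CH F.p (fun ω => (bk F w L ω, F.T1 w ω)) (fun ω => (F.l ω, F.Z ω)) =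
      CH F.p (F.T1 (w + L)) (fun ω => (F.l ω, F.Z ω)) := by
    refine CH_congr hp ?_ ?_ ?_ ?_
    · intro ω ω' _ _ he
      obtain ⟨e1, e2⟩ := Prod.ext_iff.mp (Prod.ext_iff.mp he).1
      simp only at e1 e2
      unfold bk at e1
      have a1 := F.T1_T1 (Nat.le_add_right w L) hJ ω
      have a2 := F.T1_T1 (Nat.le_add_right w L) hJ ω'
      rw [Nat.add_sub_cancel_left] at a1 a2
      rw [← Nat.div_add_mod (F.T1 (w + L) ω) (2 ^ L), ← Nat.div_add_mod (F.T1 (w + L) ω') (2 ^ L),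
        a1, a2, e1, e2]
    · intro ω ω' _ _ he
      have e := (Prod.ext_iff.mp he).1
      simp only at e
      have a1 := F.T1_T1 (Nat.le_add_right w L) hJ ω
      have a2 := F.T1_T1 (Nat.le_add_right w L) hJ ω'
      show (bk F w L ω, F.T1 w ω) = (bk F w L ω', F.T1 w ω')
      unfold bk
      rw [← a1, ← a2, e]
    · intro ω ω' _ _ he
      exact he
    · intro ω ω' _ _ he
      exact he
  have h3 : CH F.p (bk F w L) (fun ω => (F.T1 w ω, (F.l ω, F.Z ω))) =
      CH F.p (bk F w L) (Vw F w) := rfl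
  linarith

/-- **(KLP)** The chain rule for the cost of the own kernels. -/
theorem klp (F : Fam m J) {L B : ℕ} (hJ : L * B = J) :
    ∑ i ∈ range B, Ex F.p (fun ω => -Real.log (own F (i * L) L ω (bk F (i * L) L ω))) =
      CH F.p F.T (fun ω => (F.l ω, F.Z ω)) := by
  have key : ∀ b ≤ B, ∑ i ∈ range b,
      Ex F.p (fun ω => -Real.log (own F (i * L) L ω (bk F (i * L) L ω))) =
      CH F.p (F.T1 (b * L)) (fun ω => (F.l ω, F.Z ω)) := by
    intro b
    induction b with
    | zero =>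
      intro _
      rw [Finset.range_zero, Finset.sum_empty]
      symm
      refine CH_eq_zero F.isLaw.nonneg ?_
      intro ω ω' _ _ _
      rw [F.T1_eq, F.T1_eq, Nat.zero_mul, Nat.sub_zero, Nat.div_eq_of_lt (F.tim ω),
        Nat.div_eq_of_lt (F.tim ω')]
    | succ b ih =>
      intro hb
      rw [Finset.sum_range_succ, ih (by omega), own_ch]
      have h1 : b * L + L ≤ J := by
        rw [← hJ]
        calc b * L + L = L * (b + 1) := by ring
          _ ≤ L * B := Nat.mul_le_mul_left L hb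
      have h2 := blk_chain F h1
      have h3 : (b + 1) * L = b * L + L := by ring
      rw [h3, h2]
  rw [key B le_rfl]
  congr 1
  funext ω
  rw [F.T1_eq, mul_comm, hJ, Nat.sub_self, pow_zero, Nat.div_one]

end Pool.KMF
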